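import Mathlib
import Pool.Agent.Helper11.Can.Coh
import Pool.Agent.Helper11.CanTypes

/-!
# CAN-C11: expansion of a class in terms of a dual basis
-/

universe u v w t

open CategoryTheory Finset

namespace Pool.Agent.Helper11.Can

open Pool.Agent.Helper10 hiding IsAlgAut parityPart
open SmProjVar SPre Pool.Agent.Helper10.GIT Pool.Agent.Helper11.Iso

namespace C11

variable {k : Type u} [Field k] {K : Type v} [Field K] [CharZero K]
  (W : WeilCohomology.{u, v, w} k K)

/-- a homogeneous basis and the dual basis -/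
theorem exists_dual (A : SmProjVar k) : ∃ (N : ℕ) (x x' : Fin N → W.H A),
    (∀ j, x' j ∈ W.evK A ∨ x' j ∈ W.odK A) ∧
      ∀ t : W.H A, t = ∑ j, W.tr A (t * x' j) • x j := by
  classical
  have : Module.Finite K (W.H A) := (W.graded A).finite
  let b1 := Module.finBasis K (W.evK A)
  let b2 := Module.finBasis K (W.odK A)
  obtain ⟨N, b, hb⟩ : ∃ (N : ℕ) (b : Module.Basis (Fin N) K (W.H A)),
      ∀ j, b j ∈ W.evK A ∨ b j ∈ W.odK A := by
    refine ⟨_, ((b1.prod b2).map (Submodule.prodEquivOfIsCompl _ _ (W.isCompl A))).reindex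
      finSumFinEquiv, fun j => ?_⟩
    obtain ⟨i, rfl⟩ := finSumFinEquiv.surjective j
    rw [Module.Basis.reindex_apply, Equiv.symm_apply_apply, Module.Basis.map_apply,
      Submodule.coe_prodEquivOfIsCompl']
    rcases i with i | i
    · left
      simp
    · right
      simp
  let Φ : W.H A →ₗ[K] (Fin N → K) := LinearMap.pi fun j =>
    (W.trL A).comp ((LinearMap.mul K (W.H A)).flip (b j))
  have hΦ : ∀ t j, Φ t j = W.tr A (t * b j) := fun t j => rfl
  have hinj : Function.Injective Φ := by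
    rw [← LinearMap.ker_eq_bot, LinearMap.ker_eq_bot']
    intro t ht
    refine (W.trace A).nondegenerate t fun y => ?_
    rw [← b.sum_repr y, Finset.mul_sum]
    show W.trL A _ = 0
    rw [map_sum]
    refine Finset.sum_eq_zero fun j _ => ?_
    rw [mul_smul_comm, map_smul]
    have h1 := congrFun ht j
    rw [hΦ] at h1
    rw [W.trL_apply, h1]
    simp
  have hdim : Module.finrank K (W.H A) = Module.finrank K (Fin N → K) := by
    rw [Module.finrank_eq_card_basis b]
    simp
  let E := LinearMap.linearEquivOfInjective Φ hinj hdim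
  refine ⟨N, fun j => E.symm (Pi.single j 1), fun j => b j, hb, fun t => ?_⟩
  have h1 : E t = ∑ j, W.tr A (t * b j) • (Pi.single j 1 : Fin N → K) := by
    funext i
    rw [Finset.sum_apply, Finset.sum_eq_single i]
    · simp only [Pi.smul_apply, Pi.single_eq_same, smul_eq_mul, mul_one]
      rw [← hΦ]
      rfl
    · intro j _ hj
      simp [Pi.single_eq_of_ne hj.symm]
    · intro h; exact absurd (Finset.mem_univ _) h
  have h2 := congrArg E.symm h1
  rw [LinearEquiv.symm_apply_apply, map_sum] at h2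
  refine h2.trans (Finset.sum_congr rfl fun j _ => ?_)
  rw [map_smul]

theorem wordClass_succ {T A : SmProjVar k} {b : ℕ} {V : Fin (b + 1) → SmProjVar k}
    (p : T.toOver ⟶ A.toOver) (f : ∀ i, T.toOver ⟶ (V i).toOver) (x : W.H A)
    (v : ∀ i, W.H (V i)) :
    Obs.wordClass W.toCohomologyData p f x v =
      Obs.wordClass W.toCohomologyData p (fun i => f i.castSucc) x (fun i => v i.castSucc) *
        W.pull (f (Fin.last _)) (v (Fin.last _)) := by
  unfold Obs.wordClass
  rw [List.ofFn_succ', List.prod_concat, mul_assoc]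

theorem wordClass_comp {T T' A : SmProjVar k} {b : ℕ} {V : Fin b → SmProjVar k}
    (g : T'.toOver ⟶ T.toOver)
    (p : T.toOver ⟶ A.toOver) (f : ∀ i, T.toOver ⟶ (V i).toOver) (x : W.H A)
    (v : ∀ i, W.H (V i)) :
    Obs.wordClass W.toCohomologyData (g ≫ p) (fun i => g ≫ f i) x v =
      W.pull g (Obs.wordClass W.toCohomologyData p f x v) := by
  unfold Obs.wordClass
  rw [W.pull_comp, ← W.pullA_apply, ← W.pullA_apply g (_ * _), map_mul, map_list_prod,
    List.map_ofFn]
  congr 2
  congr 1
  funext i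
  exact W.pull_comp _ _ _

theorem extProd_zero {A : SmProjVar k} {V : Fin 0 → SmProjVar k} (x : W.H A)
    (v : ∀ i, W.H (V i)) : Obs.extProd W.toCohomologyData x v = x := by
  unfold Obs.extProd Obs.wordClass
  have h : W.pull (Obs.prodFst A V) x = x := W.pull_id A x
  rw [h, List.ofFn_zero, List.prod_nil]
  exact mul_one x

theorem prodProj_last {A : SmProjVar k} {b : ℕ} {V : Fin (b + 1) → SmProjVar k} :
    Obs.prodProj A V (Fin.last _) = snd (Obs.prodVar A fun i => V i.castSucc) (V (Fin.last _)) := by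
  show Fin.lastCases (motive := fun i =>
    ((Obs.prodVar A fun i => V i.castSucc).prod (V (Fin.last _))).toOver ⟶ (V i).toOver)
      (snd _ _) (fun i => fst _ _ ≫ Obs.prodProj A (fun i => V i.castSucc) i) (Fin.last b) = _
  rw [Fin.lastCases_last]

theorem prodProj_castSucc {A : SmProjVar k} {b : ℕ} {V : Fin (b + 1) → SmProjVar k} (i : Fin b) :
    Obs.prodProj A V i.castSucc = fst (Obs.prodVar A fun i => V i.castSucc) (V (Fin.last _)) ≫
      Obs.prodProj A (fun i => V i.castSucc) i := by
  show Fin.lastCases (motive := fun i =>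
    ((Obs.prodVar A fun i => V i.castSucc).prod (V (Fin.last _))).toOver ⟶ (V i).toOver)
      (snd _ _) (fun i => fst _ _ ≫ Obs.prodProj A (fun i => V i.castSucc) i) i.castSucc = _
  rw [Fin.lastCases_castSucc]

theorem extProd_succ {A : SmProjVar k} {b : ℕ} {V : Fin (b + 1) → SmProjVar k} (x : W.H A)
    (v : ∀ i, W.H (V i)) : Obs.extProd W.toCohomologyData x v =
    W.pull (fst (Obs.prodVar A fun i => V i.castSucc) (V (Fin.last _)))
      (Obs.extProd W.toCohomologyData x fun i => v i.castSucc) *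
      W.pull (snd (Obs.prodVar A fun i => V i.castSucc) (V (Fin.last _))) (v (Fin.last _)) := by
  have h1 := wordClass_succ W (T := (Obs.prodVar A fun i => V i.castSucc).prod (V (Fin.last _)))
    (fst _ _ ≫ Obs.prodFst A fun i => V i.castSucc) (Obs.prodProj A V) x v
  refine Eq.trans h1 ?_
  rw [prodProj_last]
  congr 1
  have h2 : (fun i : Fin b => Obs.prodProj A V i.castSucc) = fun i =>
      fst (Obs.prodVar A fun i => V i.castSucc) (V (Fin.last _)) ≫
        Obs.prodProj A (fun i => V i.castSucc) i := funext fun i => prodProj_castSucc i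
  rw [h2]
  exact wordClass_comp W _ _ _ _ _

/-- sign of a transposition of homogeneous families -/
theorem swap_sign {X : SmProjVar k} {ι ι' : Type*} (u : ι → W.H X) (a : ι' → W.H X)
    (hu : (∀ i, u i ∈ W.evK X) ∨ ∀ i, u i ∈ W.odK X)
    (ha : (∀ i, a i ∈ W.evK X) ∨ ∀ i, a i ∈ W.odK X) :
    ∃ ε : K, ε * ε = 1 ∧ ∀ i j, u i * a j = ε • (a j * u i) := by
  rcases hu with hu | hu
  · exact ⟨1, by ring, fun i j => by rw [one_smul]; exact W.evK_comm X _ _ (hu i)⟩
  · rcases ha with ha | ha
    · exact ⟨1, by ring, fun i j => by rw [one_smul]; exact (W.evK_comm X _ _ (ha j)).symm⟩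
    · exact ⟨-1, by ring, fun i j => by
        rw [neg_smul, one_smul]; exact W.odK_anti X _ _ (hu i) (ha j)⟩

theorem parity_mul {X : SmProjVar k} {ι ι' : Type*} (u : ι → W.H X) (a : ι' → W.H X)
    (hu : (∀ i, u i ∈ W.evK X) ∨ ∀ i, u i ∈ W.odK X)
    (ha : (∀ i, a i ∈ W.evK X) ∨ ∀ i, a i ∈ W.odK X) :
    (∀ i j, a j * u i ∈ W.evK X) ∨ ∀ i j, a j * u i ∈ W.odK X := by
  rcases hu with hu | hu
  · rcases ha with ha | ha
    · exact .inl fun i j => W.evK_mul_evK X _ _ (ha j) (hu i)
    · right
      intro i j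
      rw [← W.evK_comm X _ _ (hu i)]
      exact W.evK_mul_odK X _ _ (hu i) (ha j)
  · rcases ha with ha | ha
    · exact .inr fun i j => W.evK_mul_odK X _ _ (ha j) (hu i)
    · exact .inl fun i j => W.odK_mul_odK X _ _ (ha j) (hu i)

theorem ext_mul {A : SmProjVar k} {b : ℕ} : ∀ {V : Fin b → SmProjVar k} {δ : Fin b → ℕ}
    (e : ∀ i, Fin (δ i) → W.H (V i))
    (_ : ∀ i, (∀ j, e i j ∈ W.evK (V i)) ∨ ∀ j, e i j ∈ W.odK (V i))
    (x' : W.H A) (_ : x' ∈ W.evK A ∨ x' ∈ W.odK A),
    ∃ c : K, c * c = 1 ∧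
      ((∀ w' : (∀ i, Fin (δ i)), Obs.extProd W.toCohomologyData x' (fun i => e i (w' i)) ∈
          W.evK (Obs.prodVar A V)) ∨
        ∀ w' : (∀ i, Fin (δ i)), Obs.extProd W.toCohomologyData x' (fun i => e i (w' i)) ∈
          W.odK (Obs.prodVar A V)) ∧
      ∀ (x : W.H A) (w w' : (∀ i, Fin (δ i))),
        Obs.extProd W.toCohomologyData x (fun i => e i (w i)) *
          Obs.extProd W.toCohomologyData x' (fun i => e i (w' i)) =
        c • Obs.extProd W.toCohomologyData (x * x') (fun i => e i (w i) * e i (w' i)) := by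
  induction b with
  | zero =>
    intro V δ e _ x' hx'
    refine ⟨1, by ring, ?_, fun x w w' => ?_⟩
    · rcases hx' with h | h
      · left
        intro w'
        rw [extProd_zero]
        exact h
      · right
        intro w'
        rw [extProd_zero]
        exact h
    · rw [extProd_zero, extProd_zero, extProd_zero]
      exact (one_smul K (x * x' : W.H A)).symm
  | succ b ih =>
    intro V δ e he x' hx'
    obtain ⟨c, hc, hp, hm⟩ := ih (V := fun i => V i.castSucc) (δ := fun i => δ i.castSucc)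
      (fun i => e i.castSucc) (fun i => he i.castSucc) x' hx'
    set T0 := Obs.prodVar A (fun i => V i.castSucc) with hT0
    have hu : (∀ j, W.pull (snd T0 (V (Fin.last _))) (e (Fin.last _) j) ∈
        W.evK (T0.prod (V (Fin.last _)))) ∨
        ∀ j, W.pull (snd T0 (V (Fin.last _))) (e (Fin.last _) j) ∈
        W.odK (T0.prod (V (Fin.last _))) := by
      rcases he (Fin.last _) with h | h
      · exact .inl fun j => W.pull_evK _ _ (h j)
      · exact .inr fun j => W.pull_odK _ _ (h j)
    have ha : (∀ w' : (∀ i : Fin b, Fin (δ i.castSucc)), W.pull (fst T0 (V (Fin.last _)))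
        (Obs.extProd W.toCohomologyData x' (fun i => e i.castSucc (w' i))) ∈
        W.evK (T0.prod (V (Fin.last _)))) ∨
        ∀ w' : (∀ i : Fin b, Fin (δ i.castSucc)), W.pull (fst T0 (V (Fin.last _)))
        (Obs.extProd W.toCohomologyData x' (fun i => e i.castSucc (w' i))) ∈
        W.odK (T0.prod (V (Fin.last _))) := by
      rcases hp with h | h
      · exact .inl fun j => W.pull_evK _ _ (h j)
      · exact .inr fun j => W.pull_odK _ _ (h j)
    obtain ⟨ε, hε, hs⟩ := swap_sign W _ _ hu ha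
    refine ⟨ε * c, ?_, ?_, fun x w w' => ?_⟩
    · calc ε * c * (ε * c) = (ε * ε) * (c * c) := by ring
        _ = 1 := by rw [hε, hc, one_mul]
    · rcases parity_mul W _ _ hu ha with h | h
      · left
        intro w'
        rw [extProd_succ]
        exact h (w' (Fin.last _)) (fun i => w' i.castSucc)
      · right
        intro w'
        rw [extProd_succ]
        exact h (w' (Fin.last _)) (fun i => w' i.castSucc)
    · rw [extProd_succ, extProd_succ, extProd_succ]
      have h1 := hm x (fun i => w i.castSucc) (fun i => w' i.castSucc)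
      have h2 := hs (w (Fin.last _)) (fun i => w' i.castSucc)
      show ((_ : W.H (T0.prod (V (Fin.last _)))) * _) * (_ * _) = _ • (_ * _)
      rw [mul_assoc, ← mul_assoc (W.pull (snd T0 (V (Fin.last _))) _), h2]
      rw [smul_mul_assoc, mul_smul_comm, ← W.pullA_apply, ← W.pullA_apply, ← W.pullA_apply,
        ← W.pullA_apply, mul_assoc, ← mul_assoc (W.pullA (fst T0 (V (Fin.last _))) _), ← map_mul,
        ← map_mul, h1, map_smul, smul_mul_assoc, smul_smul]
      rfl

/-- `extProd` as a linear map in the first class -/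
noncomputable def extL {A : SmProjVar k} {b : ℕ} {V : Fin b → SmProjVar k}
    (v : ∀ i, W.H (V i)) : W.H A →ₗ[K] W.H (Obs.prodVar A V) where
  toFun x := Obs.extProd W.toCohomologyData x v
  map_add' x y := by
    show W.pull _ (x + y) * _ = W.pull _ x * _ + W.pull _ y * _
    rw [← W.pullA_apply, ← W.pullA_apply, ← W.pullA_apply, map_add, add_mul]
  map_smul' a x := by
    show W.pull _ (a • x) * _ = a • (W.pull _ x * _)
    rw [← W.pullA_apply, ← W.pullA_apply, map_smul, smul_mul_assoc]

theorem extL_apply {A : SmProjVar k} {b : ℕ} {V : Fin b → SmProjVar k}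
    (v : ∀ i, W.H (V i)) (x : W.H A) : extL W v x = Obs.extProd W.toCohomologyData x v := rfl

theorem exists_coef {A : SmProjVar k} {b : ℕ} {V : Fin b → SmProjVar k} {δ : Fin b → ℕ}
    (e : ∀ i, Fin (δ i) → W.H (V i)) (y : W.H (Obs.prodVar A V))
    (hy : y ∈ Submodule.span K {y | ∃ (x : W.H A) (w : ∀ i, Fin (δ i)),
      y = Obs.extProd W.toCohomologyData x fun i => e i (w i)}) :
    ∃ Y : (∀ i, Fin (δ i)) → W.H A, y = ∑ w, extL W (fun i => e i (w i)) (Y w) := by
  classical
  induction hy using Submodule.span_induction with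
  | mem y hy =>
    obtain ⟨x, w, rfl⟩ := hy
    refine ⟨Pi.single w x, ?_⟩
    rw [Finset.sum_eq_single w]
    · rw [Pi.single_eq_same]
      rfl
    · intro w' _ hw'
      rw [Pi.single_eq_of_ne hw', map_zero]
    · intro h; exact absurd (Finset.mem_univ _) h
  | zero => exact ⟨fun _ => 0, by simp⟩
  | add x y _ _ hx hy =>
    obtain ⟨Y, rfl⟩ := hx
    obtain ⟨Y', rfl⟩ := hy
    exact ⟨fun w => Y w + Y' w, by simp only [map_add, Finset.sum_add_distrib]⟩
  | smul a x _ hx =>
    obtain ⟨Y, rfl⟩ := hx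
    exact ⟨fun w => a • Y w, by simp only [map_smul, Finset.smul_sum]⟩

omit [CharZero K] in
theorem matrix_sum {b : ℕ} {δ : Fin b → ℕ} (G B : ∀ i, Matrix (Fin (δ i)) (Fin (δ i)) K)
    (hGB : ∀ i, G i * B i = 1) (t : (∀ i, Fin (δ i)) → K) (w : ∀ i, Fin (δ i)) :
    ∑ w' : (∀ i, Fin (δ i)), (∏ i, B i (w' i) (w i)) *
      ∑ w0 : (∀ i, Fin (δ i)), t w0 * ∏ i, G i (w0 i) (w' i) = t w := by
  classical
  simp only [Finset.mul_sum]
  rw [Finset.sum_comm]
  have h1 : ∀ w0 : (∀ i, Fin (δ i)), ∑ w' : (∀ i, Fin (δ i)),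
      (∏ i, B i (w' i) (w i)) * (t w0 * ∏ i, G i (w0 i) (w' i)) =
      t w0 * if w0 = w then 1 else 0 := by
    intro w0
    have h2 : ∀ w' : (∀ i, Fin (δ i)), (∏ i, B i (w' i) (w i)) * (t w0 * ∏ i, G i (w0 i) (w' i)) =
        t w0 * ∏ i, (G i (w0 i) (w' i) * B i (w' i) (w i)) := by
      intro w'
      rw [Finset.prod_mul_distrib]
      ring
    rw [Finset.sum_congr rfl fun w' _ => h2 w', ← Finset.mul_sum]
    congr 1
    have h3 := Finset.prod_univ_sum (fun i : Fin b => (Finset.univ : Finset (Fin (δ i))))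
      (fun i j => G i (w0 i) j * B i j (w i))
    rw [Fintype.piFinset_univ] at h3
    rw [← h3]
    have h4 : ∀ i, ∑ j, G i (w0 i) j * B i j (w i) = if w0 i = w i then 1 else 0 := by
      intro i
      rw [← Matrix.mul_apply, hGB, Matrix.one_apply]
    simp only [h4]
    by_cases h : w0 = w
    · rw [if_pos h]
      exact Finset.prod_eq_one fun i _ => if_pos (congrFun h i)
    · rw [if_neg h]
      obtain ⟨i, hi⟩ := Function.ne_iff.mp h
      exact Finset.prod_eq_zero (Finset.mem_univ i) (if_neg hi)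
  rw [Finset.sum_congr rfl fun w0 _ => h1 w0]
  simp

end C11

section weil

variable {k : Type u} [Field k] {K : Type v} [Field K] [CharZero K]
  (W : WeilCohomology.{u, v, w} k K)

open C11 in
/-- CAN-C11: expansion of a class in terms of a dual basis. -/
theorem exists_expansion
    (htr : ∀ {A : SmProjVar k} {b : ℕ} {V : Fin b → SmProjVar k} (x : W.H A)
      (v : ∀ i, W.H (V i)),
      W.tr _ (Obs.extProd W.toCohomologyData x v) = W.tr A x * ∏ i, W.tr (V i) (v i))
    {A : SmProjVar k} {b : ℕ} {V : Fin b → SmProjVar k} {δ : Fin b → ℕ}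
    (e : ∀ i, Fin (δ i) → W.H (V i)) (B : ∀ i, Matrix (Fin (δ i)) (Fin (δ i)) K)
    (hpar : ∀ i, (∀ j, e i j ∈ W.evK (V i)) ∨ ∀ j, e i j ∈ W.odK (V i))
    (hB : ∀ i, (Matrix.of fun j j' => W.pairing (V i) (e i j) (e i j')) * B i = 1)
    (y : W.H (Obs.prodVar A V))
    (hy : y ∈ Submodule.span K {y | ∃ (x : W.H A) (w : ∀ i, Fin (δ i)),
      y = Obs.extProd W.toCohomologyData x fun i => e i (w i)}) :
    ∃ (N : ℕ) (x x' : Fin N → W.H A), ∀ z : W.H (Obs.prodVar A V),
      W.pairing _ z y = ∑ j, ∑ w : (∀ i, Fin (δ i)), ∑ w' : (∀ i, Fin (δ i)),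
        W.pairing _ z (Obs.extProd W.toCohomologyData (x j) fun i => e i (w i)) *
          (∏ i, B i (w' i) (w i)) *
          W.pairing _ y (Obs.extProd W.toCohomologyData (x' j) fun i => e i (w' i)) := by
  classical
  obtain ⟨Y, rfl⟩ := exists_coef W e y hy
  obtain ⟨N, x, x', hx', hexp⟩ := exists_dual W A
  choose c hc _ hm using fun j => ext_mul W e hpar (x' j) (hx' j)
  refine ⟨N, x, fun j => c j • x' j, fun z => ?_⟩
  set G : ∀ i, Matrix (Fin (δ i)) (Fin (δ i)) K :=
    fun i => Matrix.of fun j j' => W.pairing (V i) (e i j) (e i j') with hG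
  -- the pairings of `y` with the dual words
  have h1 : ∀ j (w' : (∀ i, Fin (δ i))),
      W.pairing _ (∑ w, extL W (fun i => e i (w i)) (Y w))
        (Obs.extProd W.toCohomologyData (c j • x' j) fun i => e i (w' i)) =
      ∑ w0, W.tr A (Y w0 * x' j) * ∏ i, G i (w0 i) (w' i) := by
    intro j w'
    show W.trL _ (_ * extL W (fun i => e i (w' i)) (c j • x' j)) = _
    rw [map_smul, Finset.sum_mul, map_sum]
    refine Finset.sum_congr rfl fun w0 _ => ?_
    rw [mul_smul_comm, extL_apply, extL_apply, hm j, smul_smul, hc j, one_smul, W.trL_apply, htr]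
    rfl
  have h2 : ∀ w, extL W (fun i => e i (w i)) (Y w) =
      ∑ j, W.tr A (Y w * x' j) • extL W (fun i => e i (w i)) (x j) := by
    intro w
    conv_lhs => rw [hexp (Y w)]
    rw [map_sum]
    exact Finset.sum_congr rfl fun j _ => map_smul _ _ _
  have h3 : W.pairing _ z (∑ w, extL W (fun i => e i (w i)) (Y w)) =
      ∑ j, ∑ w, W.tr A (Y w * x' j) *
        W.pairing _ z (Obs.extProd W.toCohomologyData (x j) fun i => e i (w i)) := by
    show W.trL _ (z * _) = _
    rw [Finset.mul_sum, map_sum, Finset.sum_comm]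
    refine Finset.sum_congr rfl fun w _ => ?_
    rw [h2 w, Finset.mul_sum, map_sum]
    refine Finset.sum_congr rfl fun j _ => ?_
    rw [mul_smul_comm, map_smul]
    rfl
  rw [h3]
  refine Finset.sum_congr rfl fun j _ => Finset.sum_congr rfl fun w _ => ?_
  have h4 := matrix_sum G B hB (fun w0 => W.tr A (Y w0 * x' j)) w
  simp only [h1]
  rw [← h4, Finset.sum_mul]
  refine Finset.sum_congr rfl fun w' _ => ?_
  ring

end weil

end Pool.Agent.Helper11.Can
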