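import Mathlib
import Pool.Agent.Helper11.Can.Defs

/-!
# CAN-C6: compatibility of `pform` with field extensions
-/

universe v t

open Finset

namespace Pool.Agent.Helper11.Can

open Pool.Agent.Helper10.GIT

section coh

variable {K : Type t} [Field K] {Ω : Type v} [Field Ω] [Algebra K Ω] {P : ℕ} {d : Fin P → ℕ}

theorem ent_map (c : Fin P) (M : Matrix (Fin (d c)) (Fin (d c)) K) (l l' : Let d) :
    algebraMap K Ω (ent c M l l') = ent c (M.map (algebraMap K Ω)) l l' := by
  unfold ent
  simp only [map_sum, map_mul, Matrix.map_apply, apply_ite (algebraMap K Ω), map_one, map_zero]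

theorem pform_map (B : Mats d K) {I : Type} [Fintype I] {χ : I → Shape P} {S : Type}
    [Fintype S] (cl : S → Fin P) (σ : S × Fin 2 ≃ Pos χ) (z : ∀ r, Ten d K (χ r)) :
    algebraMap K Ω (pform B cl σ z) =
      pform (fun c => (B c).map (algebraMap K Ω)) cl σ (fun r => emb Ω (z r)) := by
  unfold pform
  rw [map_sum]
  refine Finset.sum_congr rfl (fun W _ => ?_)
  rw [map_mul, map_prod, map_prod]
  congr 1
  exact Finset.prod_congr rfl (fun x _ => ent_map _ _ _ _)

/-- CAN-C6: descent of `PZero` (the form `pform` is compatible with extensions of fields) -/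
theorem pZero_of_ext {A N : Family d K} {B : Mats d K}
    (h : PZero (fun c => (B c).map (algebraMap K Ω)) (ext Ω A) (ext Ω N)) : PZero B A N := by
  intro I _ χ S _ cl σ z hA hN
  apply (algebraMap K Ω).injective
  rw [map_zero, pform_map]
  exact h I χ S cl σ (fun r => emb Ω (z r)) (fun r => ⟨z r, hA r, rfl⟩)
    (hN.imp fun r hr => ⟨z r, hr, rfl⟩)

end coh

end Pool.Agent.Helper11.Can
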